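import Pool.Agent.K1H2.UB.Stm

/-!
# Piece LHI of project UB: the shifted Newton kernel is superharmonic
-/

set_option autoImplicit false

open Finset Pool.Agent.K1H2.UB

namespace Pool.Agent.K1H13.UB

lemma h_le (r : ℝ) (hr : r ^ 2 ≤ 1 / 4) :
    1 / Real.sqrt (1 + r) + 1 / Real.sqrt (1 - r) ≤ 2 + 3 / 4 * r ^ 2 + 3 / 4 * r ^ 4 := by
  have hr' : |r| ≤ 1 / 2 := abs_le_of_sq_le_sq (by norm_num; linarith) (by norm_num)
  have h1 := abs_le.1 hr'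
  have p1 : 0 < 1 + r := by linarith
  have p2 : 0 < 1 - r := by linarith
  set A := 1 / Real.sqrt (1 + r) with hA
  set B := 1 / Real.sqrt (1 - r) with hB
  have hA0 : 0 < A := by rw [hA]; positivity
  have hB0 : 0 < B := by rw [hB]; positivity
  have hA2 : A ^ 2 = 1 / (1 + r) := by rw [hA, div_pow, Real.sq_sqrt p1.le, one_pow]
  have hB2 : B ^ 2 = 1 / (1 - r) := by rw [hB, div_pow, Real.sq_sqrt p2.le, one_pow]
  set s := r ^ 2 with hs
  have hs0 : 0 ≤ s := by positivity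
  have p3 : 0 < 1 - s := by linarith
  have e1 : A ^ 2 + B ^ 2 = 2 / (1 - s) := by
    rw [hA2, hB2, hs]
    have : (1 - r ^ 2) ≠ 0 := by rw [hs] at p3; exact p3.ne'
    field_simp
    ring
  have e2 : (A * B) ^ 2 = 1 / (1 - s) := by
    rw [mul_pow, hA2, hB2, hs]
    have : (1 - r ^ 2) ≠ 0 := by rw [hs] at p3; exact p3.ne'
    field_simp
    ring
  have e3 : 1 / (1 - s) ≤ (1 + s / 2 + s ^ 2 / 2) ^ 2 := by
    rw [div_le_iff₀ p3]
    have : (1 + s / 2 + s ^ 2 / 2) ^ 2 * (1 - s) - 1 =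
      s ^ 2 * (1 / 4 - 3 / 4 * s - s ^ 2 / 4 - s ^ 3 / 4) := by ring
    have h2 : 0 ≤ 1 / 4 - 3 / 4 * s - s ^ 2 / 4 - s ^ 3 / 4 := by
      have : s ^ 2 ≤ 1 / 16 := by nlinarith
      have : s ^ 3 ≤ 1 / 64 := by nlinarith
      linarith
    have h3 : 0 ≤ s ^ 2 * (1 / 4 - 3 / 4 * s - s ^ 2 / 4 - s ^ 3 / 4) := by positivity
    linarith
  have e4 : A * B ≤ 1 + s / 2 + s ^ 2 / 2 :=
    le_of_sq_le_sq (by rw [e2]; exact e3) (by positivity)
  have e5 : 2 / (1 - s) ≤ 2 * (1 + s + s ^ 2 + 4 / 3 * s ^ 3) := by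
    rw [div_le_iff₀ p3]
    have : 2 * (1 + s + s ^ 2 + 4 / 3 * s ^ 3) * (1 - s) - 2 = 2 * s ^ 3 * (1 / 3 - 4 / 3 * s) := by
      ring
    have h2 : 0 ≤ 1 / 3 - 4 / 3 * s := by linarith
    have h3 : 0 ≤ 2 * s ^ 3 * (1 / 3 - 4 / 3 * s) := by positivity
    linarith
  have e6 : (A + B) ^ 2 ≤ (2 + 3 / 4 * s + 3 / 4 * s ^ 2) ^ 2 := by
    have : (A + B) ^ 2 = (A ^ 2 + B ^ 2) + 2 * (A * B) := by ring
    rw [this, e1]
    have h2 : (2 + 3 / 4 * s + 3 / 4 * s ^ 2) ^ 2 -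
        (2 * (1 + s + s ^ 2 + 4 / 3 * s ^ 3) + 2 * (1 + s / 2 + s ^ 2 / 2)) =
        s ^ 2 * (9 / 16 - 37 / 24 * s + 9 / 16 * s ^ 2) := by ring
    have h3 : 0 ≤ 9 / 16 - 37 / 24 * s + 9 / 16 * s ^ 2 := by nlinarith
    have h4 : 0 ≤ s ^ 2 * (9 / 16 - 37 / 24 * s + 9 / 16 * s ^ 2) := by positivity
    linarith
  have e7 : A + B ≤ 2 + 3 / 4 * s + 3 / 4 * s ^ 2 := le_of_sq_le_sq e6 (by positivity)
  have e8 : s ^ 2 = r ^ 4 := by rw [hs]; ring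
  rw [← e8]
  exact e7

lemma pair (Q t : ℝ) (hQ : 0 < Q) (ht : (t / Q) ^ 2 ≤ 1 / 4) :
    1 / Real.sqrt (Q + t) + 1 / Real.sqrt (Q - t) ≤
      1 / Real.sqrt Q * (2 + 3 / 4 * (t / Q) ^ 2 + 3 / 4 * (t / Q) ^ 4) := by
  have h := h_le (t / Q) ht
  have e1 : Real.sqrt (Q + t) = Real.sqrt Q * Real.sqrt (1 + t / Q) := by
    rw [← Real.sqrt_mul hQ.le]
    congr 1
    field_simp
  have e2 : Real.sqrt (Q - t) = Real.sqrt Q * Real.sqrt (1 - t / Q) := by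
    rw [← Real.sqrt_mul hQ.le]
    congr 1
    field_simp
  rw [e1, e2]
  have e3 : ∀ x : ℝ, 1 / (Real.sqrt Q * x) = 1 / Real.sqrt Q * (1 / x) := fun x => by
    rw [one_div_mul_one_div]
  rw [e3, e3, ← mul_add]
  exact mul_le_mul_of_nonneg_left h (by positivity)

lemma q_add (w : Fin 3 → ℝ) (i : Fin 3) (b : Bool) :
    q (w + rd (i, b)) = q w + 1 + (if b then 2 * w i else -(2 * w i)) := by
  unfold q rd
  fin_cases i <;> cases b <;> simp [Fin.sum_univ_three] <;> ring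

theorem t_LHI : S_LHI := by
  intro w
  set Q := q w + 4 with hQ
  have hq0 : 0 ≤ q w := sum_nonneg fun i _ => sq_nonneg _
  have hq4 : 4 ≤ Q := by linarith
  have hQ0 : 0 < Q := by linarith
  have hqe : q w = w 0 ^ 2 + w 1 ^ 2 + w 2 ^ 2 := by unfold q; rw [Fin.sum_univ_three]
  have hr : ∀ i, (2 * w i / Q) ^ 2 ≤ 1 / 4 := by
    intro i
    have h1 : w i ^ 2 ≤ q w := by
      rw [hqe]
      have := sq_nonneg (w 0)
      have := sq_nonneg (w 1)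
      have := sq_nonneg (w 2)
      fin_cases i <;> simp only [] <;> simp <;> linarith
    rw [div_pow, div_le_iff₀ (by positivity)]
    nlinarith [sq_nonneg (q w - 4)]
  have hs : (∑ e : Fin 3 × Bool, 1 / Real.sqrt (q (w + rd e) + 3)) =
      ∑ i : Fin 3, (1 / Real.sqrt (Q + 2 * w i) + 1 / Real.sqrt (Q - 2 * w i)) := by
    rw [Fintype.sum_prod_type]
    refine sum_congr rfl fun i _ => ?_
    rw [Fintype.sum_bool, q_add, q_add]
    simp only [if_true, Bool.false_eq_true, if_false]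
    congr 3
    · rw [hQ]; ring
    · rw [hQ]; ring
  rw [hs]
  have h1 : (∑ i : Fin 3, (1 / Real.sqrt (Q + 2 * w i) + 1 / Real.sqrt (Q - 2 * w i))) ≤
      ∑ i : Fin 3, 1 / Real.sqrt Q *
        (2 + 3 / 4 * (2 * w i / Q) ^ 2 + 3 / 4 * (2 * w i / Q) ^ 4) :=
    sum_le_sum fun i _ => pair Q (2 * w i) hQ0 (hr i)
  have h2 : (∑ i : Fin 3, 1 / Real.sqrt Q *
        (2 + 3 / 4 * (2 * w i / Q) ^ 2 + 3 / 4 * (2 * w i / Q) ^ 4)) / 6 ≤
      1 / Real.sqrt Q * (1 + 1 / (2 * Q)) := by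
    rw [← mul_sum, mul_div_assoc]
    refine mul_le_mul_of_nonneg_left ?_ (by positivity)
    rw [Fin.sum_univ_three]
    set a := (2 * w 0 / Q) ^ 2 with ha
    set b := (2 * w 1 / Q) ^ 2 with hb
    set c := (2 * w 2 / Q) ^ 2 with hc
    have ea : (2 * w 0 / Q) ^ 4 = a ^ 2 := by rw [ha]; ring
    have eb : (2 * w 1 / Q) ^ 4 = b ^ 2 := by rw [hb]; ring
    have ec : (2 * w 2 / Q) ^ 4 = c ^ 2 := by rw [hc]; ring
    have a0 : 0 ≤ a := sq_nonneg _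
    have b0 : 0 ≤ b := sq_nonneg _
    have c0 : 0 ≤ c := sq_nonneg _
    rw [ea, eb, ec]
    have habc : a + b + c = 4 * (Q - 4) / Q ^ 2 := by
      rw [ha, hb, hc]
      have : Q - 4 = w 0 ^ 2 + w 1 ^ 2 + w 2 ^ 2 := by rw [hQ, ← hqe]; ring
      rw [this]
      field_simp
      ring
    have hsq : a ^ 2 + b ^ 2 + c ^ 2 ≤ (a + b + c) ^ 2 := by
      nlinarith [mul_nonneg a0 b0, mul_nonneg a0 c0, mul_nonneg b0 c0]
    have h3 : (a + b + c) ^ 2 ≤ 16 / Q ^ 2 := by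
      rw [habc, div_pow, div_le_div_iff₀ (by positivity) (by positivity)]
      have h4 : (4 * (Q - 4)) ^ 2 ≤ 16 * Q ^ 2 := by nlinarith
      calc (4 * (Q - 4)) ^ 2 * Q ^ 2 ≤ 16 * Q ^ 2 * Q ^ 2 :=
            mul_le_mul_of_nonneg_right h4 (by positivity)
        _ = 16 * (Q ^ 2) ^ 2 := by ring
    have h5 : 4 * (Q - 4) / Q ^ 2 = 4 / Q - 16 / Q ^ 2 := by
      field_simp
      ring
    rw [h5] at habc
    have h6 : 1 / (2 * Q) = (4 / Q) / 8 := by field_simp; norm_num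
    rw [h6]
    linarith
  refine ((div_le_div_of_nonneg_right h1 (by norm_num)).trans h2).trans ?_
  have e3 : q w + 3 = Q - 1 := by rw [hQ]; ring
  rw [e3]
  have hQ1 : 0 < Q - 1 := by linarith
  rw [div_mul_eq_mul_div, one_mul, div_le_div_iff₀ (Real.sqrt_pos.2 hQ0) (Real.sqrt_pos.2 hQ1),
    one_mul]
  apply le_of_sq_le_sq _ (Real.sqrt_nonneg _)
  rw [mul_pow, Real.sq_sqrt hQ1.le, Real.sq_sqrt hQ0.le]
  have e4 : (1 + 1 / (2 * Q)) ^ 2 * (Q - 1) = Q - 3 / (4 * Q) - 1 / (4 * Q ^ 2) := by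
    field_simp
    ring
  rw [e4]
  have : 0 ≤ 3 / (4 * Q) := by positivity
  have : 0 ≤ 1 / (4 * Q ^ 2) := by positivity
  linarith

end Pool.Agent.K1H13.UB
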